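import Mathlib

/-!
# A closed relation on a totally disconnected space whose square contains the diagonal and which
fails the (1,2)-shadowing property

`X = (ℤ ∪ {∞}) × (ℕ ∪ {∞}) × ℤ/3`, `F (n, k, t) = (n + 1, 2 k + 1, t + 1)` and `G` is the union of
the graph of `F` and its inverse. Points with even second coordinate are not in the range of `F`,
so `G` has only one value there, and the third coordinate forces a shadowing trajectory to follow
`F` at every step.
-/

open Set Filter Topology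

namespace Pool.Agent.Results.MP_cda11a_an.ClockRelation

section Defs

variable {X : Type*}

/-- The relation `Gⁿ`. -/
def relPow (G : Set (X × X)) (n : ℕ) : Set (X × X) :=
  {p | ∃ x : ℕ → X, x 0 = p.1 ∧ x n = p.2 ∧ ∀ k < n, (x k, x (k + 1)) ∈ G}

/-- `(V,1)`-pseudo-orbits of `G`. -/
def PseudoOrbit1 (G V : Set (X × X)) (x : ℕ → X) : Prop :=
  ∀ m y, (x m, y) ∈ G → (y, x (m + 1)) ∈ V

/-- The point `y` `(U,2)`-shadows the sequence `x`. -/
def Shadows2 (G U : Set (X × X)) (y : X) (x : ℕ → X) : Prop :=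
  ∃ z : ℕ → X, z 0 = y ∧ (∀ m, (z m, z (m + 1)) ∈ G) ∧ ∀ m, (z m, x m) ∈ U

/-- The (1,2)-shadowing property; the entourages are the neighbourhoods of the diagonal. -/
def Shadowing12 [TopologicalSpace X] (G : Set (X × X)) : Prop :=
  ∀ U ∈ 𝓝ˢ (diagonal X), ∃ V ∈ 𝓝ˢ (diagonal X), ∀ x : ℕ → X, PseudoOrbit1 G V x →
    ∃ y, Shadows2 G U y x

end Defs

/-- The space. -/
abbrev X := OnePoint ℤ × OnePoint ℕ × ZMod 3

/-- The map. -/
def F (p : X) : X := (OnePoint.map (· + 1) p.1, OnePoint.map (fun k => 2 * k + 1) p.2.1, p.2.2 + 1)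

theorem tendsto_some {Y : Type*} [TopologicalSpace Y] [DiscreteTopology Y] {g : ℕ → Y}
    (hg : Function.Injective g) : Tendsto (fun n => (g n : OnePoint Y)) atTop (𝓝 OnePoint.infty) := by
  refine OnePoint.tendsto_coe_infty.comp ?_
  rw [coclosedCompact_eq_cocompact, cocompact_eq_cofinite, ← Nat.cofinite_eq_atTop]
  exact hg.tendsto_cofinite

theorem continuous_map' {Y : Type*} [TopologicalSpace Y] [DiscreteTopology Y] {g : Y → Y}
    (hg : Function.Injective g) : Continuous (OnePoint.map g) := by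
  refine OnePoint.continuous_map continuous_of_discreteTopology ?_
  rw [coclosedCompact_eq_cocompact, cocompact_eq_cofinite]
  exact hg.tendsto_cofinite

theorem continuous_F : Continuous F := by
  have h1 : Continuous (OnePoint.map (fun n : ℤ => n + 1)) :=
    continuous_map' (add_left_injective 1)
  have h2 : Continuous (OnePoint.map (fun k : ℕ => 2 * k + 1)) :=
    continuous_map' (fun a b h => by simpa using h)
  exact (h1.comp continuous_fst).prodMk ((h2.comp (continuous_fst.comp continuous_snd)).prodMk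
    ((continuous_of_discreteTopology (f := fun t : ZMod 3 => t + 1)).comp
      (continuous_snd.comp continuous_snd)))

/-- The relation: the graph of `F` and its inverse. -/
def G : Set (X × X) := {p | p.2 = F p.1 ∨ p.1 = F p.2}

theorem isClosed_G : IsClosed G :=
  (isClosed_eq continuous_snd (continuous_F.comp continuous_fst)).union
    (isClosed_eq continuous_fst (continuous_F.comp continuous_snd))

theorem diag_sub : ∀ x : X, (x, x) ∈ relPow G 2 := by
  intro x
  refine ⟨fun k => if k = 1 then F x else x, by simp, by simp, fun k hk => ?_⟩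
  interval_cases k
  · left; simp
  · right; simp

/-- The integer coordinate of the periodic pseudo-orbit. -/
def nn (N m : ℕ) : ℤ := ((m % (2 * N + 1) : ℕ) : ℤ) - N

/-- The periodic pseudo-orbit. -/
def po (N K m : ℕ) : X := ((nn N m : ℤ), ((2 * K : ℕ) : OnePoint ℕ), (m : ZMod 3))

theorem nn_succ (N m : ℕ) : nn N (m + 1) = nn N m + 1 ∨ (nn N m = N ∧ nn N (m + 1) = -N) := by
  unfold nn
  by_cases h : m % (2 * N + 1) = 2 * N
  · right
    have h2 : (m + 1) % (2 * N + 1) = 0 := by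
      rw [Nat.add_mod, h]
      rcases Nat.eq_zero_or_pos N with h0 | h0
      · subst h0; simp
      · rw [Nat.mod_eq_of_lt (by omega : 1 < 2 * N + 1)]; simp
    rw [h, h2]
    constructor
    · push_cast; ring
    · simp
  · left
    have hlt := Nat.mod_lt m (by omega : 0 < 2 * N + 1)
    have h2 : (m + 1) % (2 * N + 1) = m % (2 * N + 1) + 1 := by
      rw [Nat.add_mod, Nat.mod_eq_of_lt (a := 1) (by omega : 1 < 2 * N + 1)]
      exact Nat.mod_eq_of_lt (by omega)
    rw [h2]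
    push_cast
    ring

theorem nn_range (N m : ℕ) : -(N : ℤ) ≤ nn N m ∧ nn N m ≤ N := by
  unfold nn
  have hlt := Nat.mod_lt m (by omega : 0 < 2 * N + 1)
  omega

theorem F_po (N K m : ℕ) :
    F (po N K m) = (((nn N m + 1 : ℤ) : OnePoint ℤ), ((4 * K + 1 : ℕ) : OnePoint ℕ),
      ((m + 1 : ℕ) : ZMod 3)) := by
  unfold F po
  have h1 : (OnePoint.map (fun n : ℤ => n + 1) ((nn N m : ℤ) : OnePoint ℤ))
      = ((nn N m + 1 : ℤ) : OnePoint ℤ) := rfl
  have h2 : (OnePoint.map (fun k : ℕ => 2 * k + 1) ((2 * K : ℕ) : OnePoint ℕ))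
      = ((4 * K + 1 : ℕ) : OnePoint ℕ) := by
    show ((2 * (2 * K) + 1 : ℕ) : OnePoint ℕ) = _
    congr 1
    ring
  have h3 : (m : ZMod 3) + 1 = ((m + 1 : ℕ) : ZMod 3) := by push_cast; ring
  simp only [h1, h2, h3]

theorem G_po (N K m : ℕ) (y : X) (hy : (po N K m, y) ∈ G) : y = F (po N K m) := by
  rcases hy with h | h
  · exact h
  · exfalso
    have h2 : ((2 * K : ℕ) : OnePoint ℕ) = OnePoint.map (fun k => 2 * k + 1) y.2.1 :=
      congrArg (fun p : X => p.2.1) h
    induction hh : y.2.1 using OnePoint.rec with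
    | infty =>
      rw [hh] at h2
      exact OnePoint.coe_ne_infty _ h2
    | coe k =>
      rw [hh] at h2
      have h3 : (2 * K : ℕ) = 2 * k + 1 := OnePoint.coe_injective h2
      omega

theorem isClopen_zero : IsClopen ({((0 : ℤ) : OnePoint ℤ)} : Set (OnePoint ℤ)) := by
  refine ⟨isClosed_singleton, ?_⟩
  have := OnePoint.isOpenEmbedding_coe.isOpenMap ({0} : Set ℤ) (isOpen_discrete _)
  simpa using this

/-- The entourage `U`. -/
def U : Set (X × X) :=
  {p | (p.1.1 = ((0 : ℤ) : OnePoint ℤ) ↔ p.2.1 = ((0 : ℤ) : OnePoint ℤ)) ∧ p.1.2.2 = p.2.2.2}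

theorem U_mem : U ∈ 𝓝ˢ (diagonal X) := by
  have ho : IsOpen U := by
    have h1 : IsClopen {p : X × X | p.1.1 = ((0 : ℤ) : OnePoint ℤ)} :=
      isClopen_zero.preimage (continuous_fst.comp continuous_fst)
    have h2 : IsClopen {p : X × X | p.2.1 = ((0 : ℤ) : OnePoint ℤ)} :=
      isClopen_zero.preimage (continuous_fst.comp continuous_snd)
    have h3 : IsOpen {p : X × X | p.1.2.2 = p.2.2.2} := by
      have hc : Continuous (fun p : X × X => (p.1.2.2, p.2.2.2)) :=
        (continuous_snd.comp (continuous_snd.comp continuous_fst)).prodMk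
          (continuous_snd.comp (continuous_snd.comp continuous_snd))
      exact (isOpen_discrete {q : ZMod 3 × ZMod 3 | q.1 = q.2}).preimage hc
    have : U = (({p : X × X | p.1.1 = ((0 : ℤ) : OnePoint ℤ)} ∩ {p : X × X | p.2.1 = ((0 : ℤ) : OnePoint ℤ)})
        ∪ ({p : X × X | p.1.1 = ((0 : ℤ) : OnePoint ℤ)}ᶜ ∩ {p : X × X | p.2.1 = ((0 : ℤ) : OnePoint ℤ)}ᶜ))
        ∩ {p : X × X | p.1.2.2 = p.2.2.2} := by
      ext p
      simp only [U, mem_ofPred_eq, mem_inter_iff, mem_union, mem_compl_iff]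
      tauto
    rw [this]
    exact ((h1.isOpen.inter h2.isOpen).union (h1.compl.isOpen.inter h2.compl.isOpen)).inter h3
  rw [ho.mem_nhdsSet]
  rintro ⟨a, b⟩ hab
  have : a = b := hab
  subst this
  exact ⟨Iff.rfl, rfl⟩

theorem exists_po (V : Set (X × X)) (hV : V ∈ 𝓝ˢ (diagonal X)) :
    ∃ N K : ℕ, PseudoOrbit1 G V (po N K) := by
  have hV' : ∀ x : X, V ∈ 𝓝 (x, x) := fun x => mem_nhdsSet_iff_forall.1 hV (x, x) rfl
  -- the jump at infinity
  have t1 : Tendsto (fun N : ℕ => (((N + 1 : ℤ)) : OnePoint ℤ)) atTop (𝓝 OnePoint.infty) :=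
    tendsto_some (g := fun N : ℕ => (N + 1 : ℤ)) (fun a b h => by simpa using h)
  have t2 : Tendsto (fun N : ℕ => (((-N : ℤ)) : OnePoint ℤ)) atTop (𝓝 OnePoint.infty) :=
    tendsto_some (g := fun N : ℕ => (-N : ℤ)) (fun a b h => by simpa using h)
  have t3 : Tendsto (fun K : ℕ => ((4 * K + 1 : ℕ) : OnePoint ℕ)) atTop (𝓝 OnePoint.infty) :=
    tendsto_some (g := fun K : ℕ => 4 * K + 1) (fun a b h => by simpa using h)
  have t4 : Tendsto (fun K : ℕ => ((2 * K : ℕ) : OnePoint ℕ)) atTop (𝓝 OnePoint.infty) :=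
    tendsto_some (g := fun K : ℕ => 2 * K) (fun a b h => by simpa using h)
  have jump : ∀ t : ZMod 3, ∀ᶠ q : ℕ × ℕ in atTop ×ˢ atTop,
      ((((((q.1 : ℤ) + 1 : ℤ) : OnePoint ℤ), ((4 * q.2 + 1 : ℕ) : OnePoint ℕ), t) : X),
        ((((-(q.1 : ℤ) : ℤ) : OnePoint ℤ), ((2 * q.2 : ℕ) : OnePoint ℕ), t) : X)) ∈ V := by
    intro t
    have hl : Tendsto (fun q : ℕ × ℕ =>
        ((((((q.1 : ℤ) + 1 : ℤ) : OnePoint ℤ), ((4 * q.2 + 1 : ℕ) : OnePoint ℕ), t) : X),
        ((((-(q.1 : ℤ) : ℤ) : OnePoint ℤ), ((2 * q.2 : ℕ) : OnePoint ℕ), t) : X)))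
        (atTop ×ˢ atTop)
        (𝓝 ((OnePoint.infty, OnePoint.infty, t), (OnePoint.infty, OnePoint.infty, t))) :=
      ((t1.comp tendsto_fst).prodMk_nhds ((t3.comp tendsto_snd).prodMk_nhds
        tendsto_const_nhds)).prodMk_nhds
      ((t2.comp tendsto_fst).prodMk_nhds ((t4.comp tendsto_snd).prodMk_nhds
        tendsto_const_nhds))
    exact hl (hV' _)
  have jump' : ∀ᶠ q : ℕ × ℕ in atTop ×ˢ atTop, ∀ t : ZMod 3,
      ((((((q.1 : ℤ) + 1 : ℤ) : OnePoint ℤ), ((4 * q.2 + 1 : ℕ) : OnePoint ℕ), t) : X),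
        ((((-(q.1 : ℤ) : ℤ) : OnePoint ℤ), ((2 * q.2 : ℕ) : OnePoint ℕ), t) : X)) ∈ V :=
    eventually_all.2 jump
  obtain ⟨N, hN⟩ := jump'.curry.exists
  have step : ∀ n : ℤ, ∀ t : ZMod 3, ∀ᶠ K : ℕ in atTop,
      ((((n : OnePoint ℤ), ((4 * K + 1 : ℕ) : OnePoint ℕ), t) : X),
        (((n : OnePoint ℤ), ((2 * K : ℕ) : OnePoint ℕ), t) : X)) ∈ V := by
    intro n t
    have hl : Tendsto (fun K : ℕ => ((((n : OnePoint ℤ), ((4 * K + 1 : ℕ) : OnePoint ℕ), t) : X),
        (((n : OnePoint ℤ), ((2 * K : ℕ) : OnePoint ℕ), t) : X))) atTop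
        (𝓝 (((n : OnePoint ℤ), OnePoint.infty, t), ((n : OnePoint ℤ), OnePoint.infty, t))) :=
      (tendsto_const_nhds.prodMk_nhds (t3.prodMk_nhds tendsto_const_nhds)).prodMk_nhds
      (tendsto_const_nhds.prodMk_nhds (t4.prodMk_nhds tendsto_const_nhds))
    exact hl (hV' _)
  have step' : ∀ᶠ K : ℕ in atTop, ∀ n ∈ Finset.Icc (-(N : ℤ)) (N + 1), ∀ t : ZMod 3,
      ((((n : OnePoint ℤ), ((4 * K + 1 : ℕ) : OnePoint ℕ), t) : X),
        (((n : OnePoint ℤ), ((2 * K : ℕ) : OnePoint ℕ), t) : X)) ∈ V := by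
    rw [Finset.eventually_all]
    intro n _
    rw [eventually_all]
    exact step n
  obtain ⟨K, hK1, hK2⟩ := (hN.and step').exists
  refine ⟨N, K, fun m y hy => ?_⟩
  rw [G_po N K m y hy, F_po]
  rcases nn_succ N m with h | ⟨h, h'⟩
  · have := hK2 (nn N m + 1) (by
      rw [Finset.mem_Icc]
      have := nn_range N m
      omega) ((m + 1 : ℕ) : ZMod 3)
    rw [po, h]
    exact this
  · have := hK1 ((m + 1 : ℕ) : ZMod 3)
    rw [po, h', h]
    exact this

theorem not_shadowing : ¬ Shadowing12 G := by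
  intro h
  obtain ⟨V, hV, hsh⟩ := h U U_mem
  obtain ⟨N, K, hpo⟩ := exists_po V hV
  obtain ⟨y, z, -, hz, hzU⟩ := hsh _ hpo
  have hfwd : ∀ m, z (m + 1) = F (z m) := by
    intro m
    rcases hz m with h | h
    · exact h
    · exfalso
      have h1 : (z m).2.2 = (m : ZMod 3) := (hzU m).2
      have h2 : (z (m + 1)).2.2 = ((m + 1 : ℕ) : ZMod 3) := (hzU (m + 1)).2
      have h3 : (z m).2.2 = (z (m + 1)).2.2 + 1 := congrArg (fun p : X => p.2.2) h
      rw [h1, h2] at h3
      push_cast at h3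
      have h4 : (2 : ZMod 3) = 0 := by
        have : (m : ZMod 3) + 1 + 1 = m + 2 := by ring
        rw [this] at h3
        simpa using h3.symm
      exact absurd h4 (by decide)
  have h0 : nn N N = 0 := by
    unfold nn
    rw [Nat.mod_eq_of_lt (by omega)]
    simp
  have h0' : nn N (N + (2 * N + 1)) = 0 := by
    unfold nn
    rw [Nat.add_mod_right, Nat.mod_eq_of_lt (by omega)]
    simp
  have hz0 : (z N).1 = ((0 : ℤ) : OnePoint ℤ) := (hzU N).1.2 (by
    show ((nn N N : ℤ) : OnePoint ℤ) = _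
    rw [h0])
  have hz1 : (z (N + (2 * N + 1))).1 = ((0 : ℤ) : OnePoint ℤ) := (hzU _).1.2 (by
    show ((nn N (N + (2 * N + 1)) : ℤ) : OnePoint ℤ) = _
    rw [h0'])
  have hrun : ∀ j : ℕ, (z (N + j)).1 = ((j : ℤ) : OnePoint ℤ) := by
    intro j
    induction j with
    | zero => simpa using hz0
    | succ j ih =>
      have : (z (N + (j + 1))).1 = OnePoint.map (· + 1) (z (N + j)).1 := by
        rw [← add_assoc, hfwd]; rfl
      rw [this, ih]
      show (((j : ℤ) + 1 : ℤ) : OnePoint ℤ) = _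
      congr 1
  rw [hrun] at hz1
  have h5 : ((2 * N + 1 : ℕ) : ℤ) = 0 := OnePoint.coe_injective hz1
  omega

/-- **Negative answer to Q1** (with `n = 2`): there are a totally disconnected non-empty compact
Hausdorff space `X`, a (non-empty) closed relation `G` on `X` and `n ≥ 1` such that `Gⁿ` contains
the diagonal and `(X,G)` fails the (1,2)-shadowing property. -/
theorem result : ∃ (X : Type) (_ : TopologicalSpace X) (_ : CompactSpace X) (_ : T2Space X)
    (_ : TotallyDisconnectedSpace X) (_ : Nonempty X) (G : Set (X × X)) (n : ℕ),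
    IsClosed G ∧ G.Nonempty ∧ 1 ≤ n ∧ (∀ x, (x, x) ∈ relPow G n) ∧ ¬ Shadowing12 G := by
  refine ⟨X, inferInstance, inferInstance, inferInstance, inferInstance, inferInstance, G, 2,
    isClosed_G, ?_, by norm_num, diag_sub, not_shadowing⟩
  exact ⟨(((0 : ℤ), (0 : ℕ), 0), F ((0 : ℤ), (0 : ℕ), 0)), Or.inl rfl⟩

end Pool.Agent.Results.MP_cda11a_an.ClockRelation
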